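import Mathlib
import Pool.Agent.Helper8.Classify.Joint

/-!
# Averages of the conditional correlations in arithmetic progressions (module CJ-1)
-/

namespace Pool.Agent.Helper8.Classify

open Finset Filter Topology Pool.Agent.Helper8.Dilation Pool.Agent.Helper8.Order

lemma cj1_shift (F : ℕ → ℝ) (m : ℕ) (hF : ∀ n, F (n + m) = F n) (s : ℕ) :
    ∑ t ∈ range m, F (s + t) = ∑ t ∈ range m, F t := by
  induction s with
  | zero => simp
  | succ s ih =>
    rw [← ih]
    have h1 : ∑ t ∈ range (m + 1), F (s + t) = ∑ t ∈ range m, F (s + t) + F (s + m) :=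
      Finset.sum_range_succ _ _
    have h2 : ∑ t ∈ range (m + 1), F (s + t) = ∑ t ∈ range m, F (s + (t + 1)) + F (s + 0) :=
      Finset.sum_range_succ' _ _
    have h3 : ∑ t ∈ range m, F (s + (t + 1)) = ∑ t ∈ range m, F (s + 1 + t) :=
      Finset.sum_congr rfl fun t _ => by congr 1; ring
    rw [add_zero] at h2
    rw [hF s] at h1
    linarith

lemma cj1_mul (F : ℕ → ℝ) (m : ℕ) (hF : ∀ n, F (n + m) = F n) (b : ℕ) :
    ∑ t ∈ range (m * b), F t = b * ∑ t ∈ range m, F t := by
  induction b with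
  | zero => simp
  | succ b ih =>
    rw [Nat.mul_succ, Finset.sum_range_add, ih, cj1_shift F m hF]
    push_cast
    ring

lemma cj1_dvd (G : ℕ → ℝ) (q : ℕ) (hq : 1 ≤ q) (k : ℕ) :
    ∑ t ∈ range (q * k), (if q ∣ t then G t else 0) = ∑ i ∈ range k, G (q * i) := by
  induction k with
  | zero => simp
  | succ k ih =>
    rw [Nat.mul_succ, Finset.sum_range_add, ih, Finset.sum_range_succ]
    congr 1
    rw [Finset.sum_eq_single 0]
    · simp
    · intro t ht h0
      rw [if_neg]
      intro hd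
      have : q ∣ t := (Nat.dvd_add_right (Dvd.intro k rfl)).1 hd
      exact absurd (Nat.le_of_dvd (Nat.pos_of_ne_zero h0) this) (by
        have := Finset.mem_range.1 ht; omega)
    · intro h; exact absurd (Finset.mem_range.2 (by omega)) h

/-- the sum over `m * b` consecutive integers of a conditional correlation -/
lemma cj1_full (σ : ℕ → ℝ) (c : ℕ → ℕ → Finset ℕ → ℝ) (hc : JointSystem σ c) (q r k b : ℕ)
    (hq : 1 ≤ q) (hk : 1 ≤ k) (S : Finset ℕ) (s : ℕ) :
    ∑ t ∈ range (q * k * b), (if (s + t) ≡ r [MOD q] then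
      ((q * k : ℕ) : ℝ) * c (q * k) (s + t) S else 0) = ((q * k * b : ℕ) : ℝ) * c q r S := by
  have hm : 1 ≤ q * k := Nat.mul_pos hq hk
  set F : ℕ → ℝ := fun n => if n ≡ r [MOD q] then ((q * k : ℕ) : ℝ) * c (q * k) n S else 0 with hF
  have hper : ∀ n, F (n + q * k) = F n := by
    intro n
    simp only [hF]
    rw [hc.period (q * k) n S hm]
    have : (n + q * k ≡ r [MOD q]) ↔ (n ≡ r [MOD q]) := by
      unfold Nat.ModEq
      rw [Nat.add_mul_mod_self_left]
    simp only [this]
  have hper' : ∀ n, F (n + q * k * b) = F n := by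
    intro n
    clear_value F
    induction b with
    | zero => simp
    | succ b ih => rw [Nat.mul_succ, ← add_assoc, hper, ih]
  have h1 : ∑ t ∈ range (q * k * b), F (s + t) = ∑ t ∈ range (q * k * b), F t :=
    cj1_shift F _ hper' s
  have h2 : ∑ t ∈ range (q * k * b), F (r + t) = ∑ t ∈ range (q * k * b), F t :=
    cj1_shift F _ hper' r
  have h3 : ∑ t ∈ range (q * k * b), F (r + t) = b * ∑ t ∈ range (q * k), F (r + t) :=
    cj1_mul (fun t => F (r + t)) (q * k) (fun n => by
      show F (r + (n + q * k)) = F (r + n)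
      rw [← add_assoc, hper]) b
  have h4 : ∑ t ∈ range (q * k), F (r + t)
      = ∑ t ∈ range (q * k), (if q ∣ t then ((q * k : ℕ) : ℝ) * c (q * k) (r + t) S else 0) := by
    refine Finset.sum_congr rfl fun t _ => ?_
    simp only [hF]
    have : (r + t ≡ r [MOD q]) ↔ q ∣ t := by
      constructor
      · intro h
        have h' : r + t ≡ r + 0 [MOD q] := by simpa using h
        exact (Nat.modEq_zero_iff_dvd).1 (Nat.ModEq.add_left_cancel' r h')
      · intro h
        have := (Nat.modEq_zero_iff_dvd).2 h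
        simpa using Nat.ModEq.add_left r this
    simp only [this]
  have h5 := cj1_dvd (fun t => ((q * k : ℕ) : ℝ) * c (q * k) (r + t) S) q hq k
  have h6 : ∑ i ∈ range k, ((q * k : ℕ) : ℝ) * c (q * k) (r + q * i) S
      = ((q * k : ℕ) : ℝ) * c q r S := by
    rw [← Finset.mul_sum, hc.refine q k r S hq hk]
  calc ∑ t ∈ range (q * k * b), F (s + t) = ∑ t ∈ range (q * k * b), F (r + t) := by rw [h1, h2]
    _ = b * (((q * k : ℕ) : ℝ) * c q r S) := by rw [h3, h4, h5, h6]
    _ = ((q * k * b : ℕ) : ℝ) * c q r S := by push_cast; ring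

lemma cj1_period (σ : ℕ → ℝ) (c : ℕ → ℕ → Finset ℕ → ℝ) (hc : JointSystem σ c) (m : ℕ)
    (hm : 1 ≤ m) (S : Finset ℕ) (n : ℕ) : c m n S = c m (n % m) S := by
  have h : ∀ b j : ℕ, c m (j + m * b) S = c m j S := by
    intro b j
    induction b with
    | zero => simp
    | succ b ih => rw [Nat.mul_succ, ← add_assoc, hc.period m _ S hm, ih]
  conv_lhs => rw [← Nat.mod_add_div n m]
  exact h _ _

/-- averaging: a bounded sequence whose window sums of length `M` vanish outside the windows which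
meet a change. -/
lemma cj1_avg (g : ℕ → ℝ) (K : ℝ) (hK : ∀ n, |g n| ≤ K) (M : ℕ) (hM : 1 ≤ M) (Ch : ℕ → Prop)
    [DecidablePred Ch] (hz : ∀ n, 1 ≤ n → (∀ t, t < M → ¬ Ch (n + t)) →
      ∑ t ∈ range M, g (n + t) = 0) (x : ℕ) :
    |∑ n ∈ Ioc 0 x, g n| ≤ K * (2 * M + M * ((Ico 1 (x + M)).filter Ch).card) := by
  have hK0 : 0 ≤ K := (abs_nonneg _).trans (hK 0)
  have hshift : ∀ t : ℕ, |∑ n ∈ Ioc 0 x, g (n + t) - ∑ n ∈ Ioc 0 x, g n| ≤ 2 * t * K := by
    intro t
    induction t with
    | zero => simp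
    | succ t ih =>
      have h1 : ∑ n ∈ Ioc 0 x, g (n + (t + 1)) - ∑ n ∈ Ioc 0 x, g (n + t)
          = g (x + (t + 1)) - g (1 + t) := by
        clear ih hz hK
        induction x with
        | zero => simp [add_comm]
        | succ x ihx =>
          rw [Finset.sum_Ioc_succ_top (Nat.zero_le x), Finset.sum_Ioc_succ_top (Nat.zero_le x)]
          have e1 : x + 1 + t = x + (t + 1) := by ring
          rw [e1]
          linarith
      have h2 : |g (x + (t + 1)) - g (1 + t)| ≤ K + K :=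
        (abs_sub _ _).trans (add_le_add (hK _) (hK _))
      calc |∑ n ∈ Ioc 0 x, g (n + (t + 1)) - ∑ n ∈ Ioc 0 x, g n|
          = |(∑ n ∈ Ioc 0 x, g (n + (t + 1)) - ∑ n ∈ Ioc 0 x, g (n + t))
            + (∑ n ∈ Ioc 0 x, g (n + t) - ∑ n ∈ Ioc 0 x, g n)| := by congr 1; ring
        _ ≤ (K + K) + 2 * t * K := (abs_add_le _ _).trans (add_le_add (h1 ▸ h2) ih)
        _ = 2 * ((t + 1 : ℕ) : ℝ) * K := by push_cast; ring
  -- the double sum
  have hdb : |∑ n ∈ Ioc 0 x, ∑ t ∈ range M, g (n + t)|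
      ≤ (M * ((Ico 1 (x + M)).filter Ch).card : ℕ) * (M * K) := by
    classical
    set Bd : Finset ℕ := (Ioc 0 x).filter (fun n => ∃ t, t < M ∧ Ch (n + t)) with hBd
    have h1 : ∑ n ∈ Ioc 0 x, ∑ t ∈ range M, g (n + t) = ∑ n ∈ Bd, ∑ t ∈ range M, g (n + t) := by
      rw [hBd, Finset.sum_filter]
      refine Finset.sum_congr rfl fun n hn => ?_
      split_ifs with h
      · rfl
      · push Not at h
        exact hz n (Finset.mem_Ioc.1 hn).1 h
    have h2 : Bd ⊆ ((Ico 1 (x + M)).filter Ch ×ˢ range M).image (fun p => p.1 - p.2) := by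
      intro n hn
      rw [hBd, Finset.mem_filter, Finset.mem_Ioc] at hn
      obtain ⟨⟨hn1, hn2⟩, t, ht, hch⟩ := hn
      rw [Finset.mem_image]
      refine ⟨(n + t, t), ?_, by simp⟩
      rw [Finset.mem_product, Finset.mem_filter, Finset.mem_Ico, Finset.mem_range]
      exact ⟨⟨⟨by omega, by omega⟩, hch⟩, ht⟩
    have h3 : Bd.card ≤ M * ((Ico 1 (x + M)).filter Ch).card := by
      refine (Finset.card_le_card h2).trans (Finset.card_image_le.trans ?_)
      rw [Finset.card_product, Finset.card_range, mul_comm]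
    rw [h1]
    calc |∑ n ∈ Bd, ∑ t ∈ range M, g (n + t)| ≤ ∑ n ∈ Bd, |∑ t ∈ range M, g (n + t)| :=
          Finset.abs_sum_le_sum_abs _ _
      _ ≤ ∑ n ∈ Bd, (M * K) := by
          refine Finset.sum_le_sum fun n _ => ?_
          refine (Finset.abs_sum_le_sum_abs _ _).trans ?_
          refine (Finset.sum_le_sum fun t _ => hK (n + t)).trans ?_
          simp
      _ = Bd.card * (M * K) := by simp
      _ ≤ (M * ((Ico 1 (x + M)).filter Ch).card : ℕ) * (M * K) := by
          refine mul_le_mul_of_nonneg_right (by exact_mod_cast h3) (by positivity)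
  have hcomm : ∑ n ∈ Ioc 0 x, ∑ t ∈ range M, g (n + t)
      = M * ∑ n ∈ Ioc 0 x, g n
        + ∑ t ∈ range M, (∑ n ∈ Ioc 0 x, g (n + t) - ∑ n ∈ Ioc 0 x, g n) := by
    rw [Finset.sum_comm, Finset.sum_sub_distrib]
    simp
  have herr : |∑ t ∈ range M, (∑ n ∈ Ioc 0 x, g (n + t) - ∑ n ∈ Ioc 0 x, g n)|
      ≤ M * (2 * M * K) := by
    refine (Finset.abs_sum_le_sum_abs _ _).trans ?_
    refine (Finset.sum_le_sum (g := fun _ => 2 * (M : ℝ) * K) fun t ht => (hshift t).trans ?_).trans
      (by simp)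
    have : (t : ℝ) ≤ M := by exact_mod_cast (Finset.mem_range.1 ht).le
    nlinarith
  have hM0 : (0 : ℝ) < M := by exact_mod_cast hM
  have hfin : M * |∑ n ∈ Ioc 0 x, g n|
      ≤ M * (K * (2 * M + M * ((Ico 1 (x + M)).filter Ch).card)) := by
    calc M * |∑ n ∈ Ioc 0 x, g n| = |M * ∑ n ∈ Ioc 0 x, g n| := by
          rw [abs_mul, abs_of_pos hM0]
      _ = |∑ n ∈ Ioc 0 x, ∑ t ∈ range M, g (n + t)
          - ∑ t ∈ range M, (∑ n ∈ Ioc 0 x, g (n + t) - ∑ n ∈ Ioc 0 x, g n)| := by
          rw [hcomm]; congr 1; ring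
      _ ≤ _ := (abs_sub _ _).trans (add_le_add hdb herr)
      _ = M * (K * (2 * M + M * ((Ico 1 (x + M)).filter Ch).card)) := by push_cast; ring
  exact le_of_mul_le_mul_left hfin hM0

/-- CJ-1: averages of the conditional correlations in progressions. -/
theorem kap_avg (σ : ℕ → ℝ) (c : ℕ → ℕ → Finset ℕ → ℝ) (hc : JointSystem σ c)
    (Q : Finset ℕ) (hQ : ∀ p ∈ Q, p.Prime) (E : ℕ) (D : ℕ → ℝ) (B : ℝ)
    (hlev : ∀ N : ℕ, 1 ≤ N →
        (((Ico 1 N).filter fun n => ¬ (am Q E D (n + 1) = am Q E D n ∧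
          sg σ Q E D (n + 1) = sg σ Q E D n)).card : ℝ) ≤ B * (Real.log N + 1))
    (M q r : ℕ) (hM : 1 ≤ M) (hq : 1 ≤ q) (hqM : q * ∏ p ∈ Q, p ^ (E - 1) ∣ M) (S : Finset ℕ) :
    ∃ K : ℝ, 0 < K ∧ ∀ x : ℕ, 1 ≤ x →
      |∑ n ∈ (Ioc 0 x).filter (fun n => n ≡ r [MOD q]), kap c Q E D M S n - c q r S * x|
        ≤ K * (Real.log x + 1) := by
  classical
  -- structure of the modulus
  have hmd : ∀ n, ∃ k : ℕ, 1 ≤ k ∧ md Q E D M n = q * k ∧ ∃ b, M = q * k * b := by
    intro n
    have hap : 0 < am Q E D n := by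
      unfold am
      exact Finset.prod_pos fun p hp => pow_pos (hQ p hp).pos _
    have hd : am Q E D n ∣ ∏ p ∈ Q, p ^ (E - 1) := by
      unfold am
      exact Finset.prod_dvd_prod_of_dvd _ _ fun p _ => pow_dvd_pow p (Nat.sub_le _ _)
    obtain ⟨A', hA'⟩ := hd
    obtain ⟨t, ht⟩ := hqM
    have hMe : M = am Q E D n * (q * (A' * t)) := by rw [ht, hA']; ring
    have hmde : md Q E D M n = q * (A' * t) := by
      unfold md
      conv_lhs => rw [hMe]
      exact Nat.mul_div_cancel_left _ hap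
    refine ⟨A' * t, ?_, hmde, am Q E D n, ?_⟩
    · rcases Nat.eq_zero_or_pos (A' * t) with h | h
      · rw [h] at hMe; simp at hMe; omega
      · exact h
    · rw [mul_comm (q * (A' * t))]; exact hMe
  -- boundedness
  set K1 : ℝ := ∑ m ∈ range (M + 1), ∑ j ∈ range (m + 1), (m : ℝ) * |c m j S| with hK1
  have hK1n : 0 ≤ K1 := Finset.sum_nonneg fun m _ => Finset.sum_nonneg fun j _ => by positivity
  have hkap : ∀ n, |kap c Q E D M S n| ≤ K1 := by
    intro n
    obtain ⟨k, hk, hm, b, hb⟩ := hmd n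
    have hm1 : 1 ≤ md Q E D M n := by rw [hm]; exact Nat.mul_pos hq hk
    have hmM : md Q E D M n ≤ M := by unfold md; exact Nat.div_le_self _ _
    unfold kap
    rw [abs_mul, Nat.abs_cast, cj1_period σ c hc _ hm1 S n]
    have h1 : (md Q E D M n : ℝ) * |c (md Q E D M n) (n % md Q E D M n) S|
        ≤ ∑ j ∈ range (md Q E D M n + 1), (md Q E D M n : ℝ) * |c (md Q E D M n) j S| :=
      Finset.single_le_sum (f := fun j => (md Q E D M n : ℝ) * |c (md Q E D M n) j S|)
        (fun j _ => by positivity) (Finset.mem_range.2 (by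
          have := Nat.mod_lt n (Nat.lt_of_lt_of_le Nat.zero_lt_one hm1); omega))
    refine h1.trans ?_
    exact Finset.single_le_sum (f := fun m : ℕ => ∑ j ∈ range (m + 1), (m : ℝ) * |c m j S|)
        (fun m _ => Finset.sum_nonneg fun j _ => by positivity)
        (Finset.mem_range.2 (by omega))
  set g : ℕ → ℝ := fun n => (if n ≡ r [MOD q] then kap c Q E D M S n else 0) - c q r S with hg
  have hgb : ∀ n, |g n| ≤ K1 + |c q r S| := by
    intro n
    simp only [hg]
    refine (abs_sub _ _).trans (add_le_add ?_ le_rfl)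
    split_ifs
    · exact hkap n
    · simpa using hK1n
  set Ch : ℕ → Prop := fun n => ¬ (am Q E D (n + 1) = am Q E D n ∧
          sg σ Q E D (n + 1) = sg σ Q E D n) with hCh
  have hz : ∀ n, 1 ≤ n → (∀ t, t < M → ¬ Ch (n + t)) → ∑ t ∈ range M, g (n + t) = 0 := by
    intro n hn h
    have hconst : ∀ t, t < M → md Q E D M (n + t) = md Q E D M n := by
      intro t ht
      induction t with
      | zero => simp
      | succ t ih =>
        have h1 := ih (by omega)
        have h2 := h t (by omega)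
        simp only [hCh, not_not] at h2
        rw [← h1]
        unfold md
        rw [← add_assoc, h2.1]
    obtain ⟨k, hk, hm, b, hb⟩ := hmd n
    have h1 : ∑ t ∈ range M, (if (n + t) ≡ r [MOD q] then kap c Q E D M S (n + t) else 0)
        = (M : ℝ) * c q r S := by
      have h2 := cj1_full σ c hc q r k b hq hk S n
      rw [← hb] at h2
      rw [← h2]
      refine Finset.sum_congr rfl fun t ht => ?_
      unfold kap
      rw [hconst t (Finset.mem_range.1 ht), hm]
    simp only [hg]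
    rw [Finset.sum_sub_distrib, h1]
    simp
  set K2 : ℝ := K1 + |c q r S| with hK2
  have hK2n : 0 ≤ K2 := by positivity
  have hB : 0 ≤ B := by
    have := hlev 1 le_rfl
    simp only [Nat.cast_one, Real.log_one, zero_add, mul_one] at this
    exact le_trans (Nat.cast_nonneg _) this
  have hlM : 0 ≤ Real.log (1 + M) := Real.log_nonneg (by
    have : (0 : ℝ) ≤ M := Nat.cast_nonneg _
    linarith)
  refine ⟨K2 * (2 * M + M * (B * (Real.log (1 + M) + 1))) + 1, by positivity, fun x hx => ?_⟩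
  have hx1 : (1 : ℝ) ≤ x := by exact_mod_cast hx
  have hlx : 0 ≤ Real.log x := Real.log_nonneg hx1
  have hsum : ∑ n ∈ (Ioc 0 x).filter (fun n => n ≡ r [MOD q]), kap c Q E D M S n - c q r S * x
      = ∑ n ∈ Ioc 0 x, g n := by
    simp only [hg]
    rw [Finset.sum_sub_distrib, Finset.sum_filter]
    simp [mul_comm]
  rw [hsum]
  have h1 := cj1_avg g K2 hgb M hM Ch hz x
  have h2 := hlev (x + M) (by omega)
  have h3 : Real.log ((x + M : ℕ) : ℝ) ≤ Real.log x + Real.log (1 + M) := by
    rw [← Real.log_mul (by positivity) (by positivity)]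
    apply Real.log_le_log (by positivity)
    push_cast
    have : (0 : ℝ) ≤ M := Nat.cast_nonneg _
    nlinarith
  have h4 : (((Ico 1 (x + M)).filter Ch).card : ℝ)
      ≤ B * ((Real.log (1 + M) + 1) * (Real.log x + 1)) := by
    refine h2.trans (mul_le_mul_of_nonneg_left ?_ hB)
    nlinarith [mul_nonneg hlM hlx]
  calc |∑ n ∈ Ioc 0 x, g n| ≤ K2 * (2 * M + M * ((Ico 1 (x + M)).filter Ch).card) := h1
    _ ≤ K2 * (2 * M * (Real.log x + 1) + M * (B * ((Real.log (1 + M) + 1) * (Real.log x + 1)))) := by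
        refine mul_le_mul_of_nonneg_left (add_le_add ?_ ?_) hK2n
        · have : (0 : ℝ) ≤ 2 * M := by positivity
          nlinarith
        · exact mul_le_mul_of_nonneg_left h4 (Nat.cast_nonneg _)
    _ ≤ (K2 * (2 * M + M * (B * (Real.log (1 + M) + 1))) + 1) * (Real.log x + 1) := by
        nlinarith

end Pool.Agent.Helper8.Classify
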